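import Pool.Agent.Helper54.DT.StmtsS

namespace Pool.Agent.Helper54.DT

open Finset Pool.Agent.Helper54.ETR Pool.Agent.Helper54.Poly

theorem st_ASG : ST_ASG := by
  intro y L X ε τ
  refine ⟨fun k => if (k / 2) % 3 = 0 then
      y (k % 2) (Nat.unpair (Nat.unpair (k / 2 / 3)).1).1 (Nat.unpair (Nat.unpair (k / 2 / 3)).1).2
        (Nat.unpair (k / 2 / 3)).2
    else if (k / 2) % 3 = 1 then
      L (k % 2) (Nat.unpair (Nat.unpair (k / 2 / 3)).1).1 (Nat.unpair (Nat.unpair (k / 2 / 3)).1).2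
        (Nat.unpair (Nat.unpair (k / 2 / 3)).2).1 (Nat.unpair (Nat.unpair (k / 2 / 3)).2).2
    else if k / 2 / 3 = 0 then ε (k % 2) else if k / 2 / 3 = 1 then τ (k % 2)
      else X (k % 2) (k / 2 / 3 - 2), fun h hh => ⟨?_, ?_, ?_, ?_, ?_⟩⟩
  · intro a b c
    have h1 : vy h a b c / 2 = 3 * Nat.pair (Nat.pair a b) c := by unfold vy; omega
    have h2 : vy h a b c % 2 = h := by unfold vy; omega
    have h3 : 3 * Nat.pair (Nat.pair a b) c % 3 = 0 := by omega
    have h4 : 3 * Nat.pair (Nat.pair a b) c / 3 = Nat.pair (Nat.pair a b) c := by omega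
    simp only [h1, h2, h3, h4, if_true, Nat.unpair_pair]
  · intro r a b c
    have h1 : vL h r a b c / 2 = 3 * Nat.pair (Nat.pair r a) (Nat.pair b c) + 1 := by unfold vL; omega
    have h2 : vL h r a b c % 2 = h := by unfold vL; omega
    have h3 : (3 * Nat.pair (Nat.pair r a) (Nat.pair b c) + 1) % 3 = 1 := by omega
    have h4 : (3 * Nat.pair (Nat.pair r a) (Nat.pair b c) + 1) / 3 = Nat.pair (Nat.pair r a) (Nat.pair b c) := by omega
    simp only [h1, h2, h3, h4, if_true, Nat.unpair_pair, one_ne_zero, if_false]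
  · intro a
    have h1 : vX h a / 2 = 3 * (a + 2) + 2 := by unfold vX; omega
    have h2 : vX h a % 2 = h := by unfold vX; omega
    have h3 : (3 * (a + 2) + 2) % 3 = 2 := by omega
    have h4 : (3 * (a + 2) + 2) / 3 = a + 2 := by omega
    have h5 : a + 2 - 2 = a := by omega
    have h6 : ¬ (a + 2 = 0) := by omega
    have h7 : ¬ (a + 2 = 1) := by omega
    simp only [h1, h2, h3, h4, h5, h6, h7, if_false, OfNat.ofNat_ne_zero, OfNat.ofNat_ne_one]
  · have h1 : ve h / 2 = 2 := by unfold ve; omega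
    have h2 : ve h % 2 = h := by unfold ve; omega
    simp only [h1, h2]
    norm_num
  · have h1 : vt2 h / 2 = 5 := by unfold vt2; omega
    have h2 : vt2 h % 2 = h := by unfold vt2; omega
    simp only [h1, h2]
    norm_num

end Pool.Agent.Helper54.DT
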