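import Pool.Agent.Helper54.DT.StmtsH
import Pool.Agent.Helper45.DI.PTX

namespace Pool.Agent.Helper54.DT

open Finset Pool.Agent.Helper54.ETR Pool.Agent.Helper54.Poly Pool.Agent.Helper54.DI

namespace PTFS

def gA (J i j k : ℕ) : SF := [(true, (J + 2 + i, J + 2 + j)), (false, (1 + J, J + 2 + k))]

def gB (J i j k : ℕ) : SF := [(true, (J + 2 + i, 0)), (true, (J + 2 + j, 0)), (false, (J + 2 + k, 0))]

def gC (J i : ℕ) : SF := [(true, (J + 2 + i, 0)), (false, (1 + J, 0))]

/-- the third alternative -/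
def gD (J : ℕ) (m : List ℕ) : SF := if m.length = 1 then gC J (m.getD 0 0) else []

def gE (J : ℕ) (t : Tok) (m : List ℕ) : SF :=
  match t with
  | Tok.mul => if m.length = 3 then gA J (m.getD 0 0) (m.getD 1 0) (m.getD 2 0) else gD J m
  | Tok.add => if m.length = 3 then gB J (m.getD 0 0) (m.getD 1 0) (m.getD 2 0) else gD J m
  | _ => gD J m

theorem gf_eq (J : ℕ) (l : List Tok) : gf J l = gE J (l.getD 1 Tok.zero) (vnum l) := by
  unfold gf gE
  generalize l.getD 1 Tok.zero = t
  generalize vnum l = m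
  rcases m with _ | ⟨i, _ | ⟨j, _ | ⟨k, _ | ⟨r, m⟩⟩⟩⟩ <;> cases t <;> simp [gD, gA, gB, gC]

variable {α : Type} [TEnc α]

theorem pe {b : Bool} {f g : α → ℕ} (hf : PT f) (hg : PT g) :
    PT (fun a => ((b, (f a, g a)) : Bool × (ℕ × ℕ))) := (PT.const b).pair (hf.pair hg)

theorem pgD {J : α → ℕ} {m : α → List ℕ} (hJ : PT J) (hm : PT m) : PT (fun a => gD (J a) (m a)) := by
  have h1 : PT (fun a => decide ((m a).length = 1)) := PT.eqN (PT.length hm) (PT.const 1)
  have h2 : PT (fun a => gC (J a) ((m a).getD 0 0)) :=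
    PT.lcons (pe (PT.add (PT.add hJ (PT.const 2)) (PT.getD (PT.const 0) hm (PT.const 0))) (PT.const 0))
      (PT.lcons (pe (PT.add (PT.const 1) hJ) (PT.const 0)) (PT.const []))
  refine (PT.ite h1 h2 (PT.const [])).congr fun a => ?_
  unfold gD
  simp

theorem pgf {J : α → ℕ} {l : α → List Tok} (hJ : PT J) (hl : PT l) : PT (fun a => gf (J a) (l a)) := by
  have hm : PT (fun a => vnum (l a)) := PTX.PTvnum hl
  have ht : PT (fun a => (l a).getD 1 Tok.zero) := PT.getD (PT.const 1) hl (PT.const _)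
  have hg : ∀ i, PT (fun a => (vnum (l a)).getD i 0) := fun i => PT.getD (PT.const i) hm (PT.const 0)
  have h3 : PT (fun a => decide ((vnum (l a)).length = 3)) := PT.eqN (PT.length hm) (PT.const 3)
  have hJ2 : ∀ i, PT (fun a => J a + 2 + (vnum (l a)).getD i 0) :=
    fun i => PT.add (PT.add hJ (PT.const 2)) (hg i)
  have hJ1 : PT (fun a => 1 + J a) := PT.add (PT.const 1) hJ
  have hD : PT (fun a => gD (J a) (vnum (l a))) := pgD hJ hm
  have hA : PT (fun a => gA (J a) ((vnum (l a)).getD 0 0) ((vnum (l a)).getD 1 0) ((vnum (l a)).getD 2 0)) :=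
    PT.lcons (pe (hJ2 0) (hJ2 1)) (PT.lcons (pe hJ1 (hJ2 2)) (PT.const []))
  have hB : PT (fun a => gB (J a) ((vnum (l a)).getD 0 0) ((vnum (l a)).getD 1 0) ((vnum (l a)).getD 2 0)) :=
    PT.lcons (pe (hJ2 0) (PT.const 0)) (PT.lcons (pe (hJ2 1) (PT.const 0))
      (PT.lcons (pe (hJ2 2) (PT.const 0)) (PT.const [])))
  have hE : PT (fun a => gE (J a) ((l a).getD 1 Tok.zero) (vnum (l a))) := by
    refine PTtok (t := fun a => (l a).getD 1 Tok.zero) ht (fun t a => gE (J a) t (vnum (l a))) ?_
    intro t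
    cases t
    case mul =>
      refine (PT.ite h3 hA hD).congr fun a => ?_
      unfold gE
      simp
    case add =>
      refine (PT.ite h3 hB hD).congr fun a => ?_
      unfold gE
      simp
    all_goals exact hD
  exact hE.congr fun a => (gf_eq _ _).symm

end PTFS

open PTFS

theorem st_PTFS : ST_PTFS := by
  intro α _ g hg
  have hn : PT (fun a => (g a).length) := PT.length hg
  have hQ : PT (fun a => QB (g a).length) := PTX.PTQB hn
  refine ⟨?_, PT.add (PT.add hQ hn) (PT.const 3)⟩
  have h0 : PT (fun _ : α => ([(true, (1, 0)), (true, (1, 0)), (false, (0, 0))] : SF)) := PT.const _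
  have h1 : PT (fun a => (List.range (QB (g a).length)).map
      (fun j => ([(true, (2 + j, 0)), (false, (1 + j, 1 + j))] : SF))) := by
    have h : PT (fun z : α × ℕ => ([(true, (2 + z.2, 0)), (false, (1 + z.2, 1 + z.2))] : SF)) :=
      PT.lcons (pe (PT.add (PT.const 2) PT.id.snd) (PT.const 0))
        (PT.lcons (pe (PT.add (PT.const 1) PT.id.snd) (PT.add (PT.const 1) PT.id.snd)) (PT.const []))
    exact PT.map h (PT.range hQ)
  have h2 : PT (fun a => (g a).map (gf (QB (g a).length))) := by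
    have h : PT (fun z : α × List Tok => gf (QB (g z.1).length) z.2) :=
      pgf (hQ.comp PT.id.fst) PT.id.snd
    exact PT.map h hg
  have hN : PT (fun a => QB (g a).length + 1 + (g a).length) := PT.add (PT.add hQ (PT.const 1)) hn
  have h3 : PT (fun a => (List.range (QB (g a).length + 1 + (g a).length)).map
      (fun v => ((true, (v + 1, v + 1)) : Bool × (ℕ × ℕ)))) := by
    have h : PT (fun z : α × ℕ => ((true, (z.2 + 1, z.2 + 1)) : Bool × (ℕ × ℕ))) :=
      pe (PT.succ PT.id.snd) (PT.succ PT.id.snd)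
    exact PT.map h (PT.range hN)
  have h4 : PT (fun a => List.replicate (QB (g a).length + 1 + (g a).length)
      ((false, (0, 0)) : Bool × (ℕ × ℕ))) := by
    have h : PT (fun _ : α × ℕ => ((false, (0, 0)) : Bool × (ℕ × ℕ))) := PT.const _
    refine (PT.map h (PT.range hN)).congr fun a => ?_
    rw [List.map_const', List.length_range]
  have h5 : PT (fun a => ((true, (QB (g a).length + (g a).length + 2, QB (g a).length + (g a).length + 2)) :
      Bool × (ℕ × ℕ))) :=
    pe (PT.add (PT.add hQ hn) (PT.const 2)) (PT.add (PT.add hQ hn) (PT.const 2))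
  exact PT.lcons h0 (PT.append h1 (PT.append h2 (PT.lcons (PT.append h3 (PT.lcons h5 h4)) (PT.const []))))

end Pool.Agent.Helper54.DT
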