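import Pool.Agent.Helper54.DT.StmtsS

namespace Pool.Agent.Helper54.DT

open Finset Pool.Agent.Helper54.ETR Pool.Agent.Helper54.Poly

theorem tay1_const (t : Term) (h : t.deg ∅ = 0) (x y : ℕ → ℝ) : t.eval x = t.eval y := by
  induction t with
  | zero => rfl
  | one => rfl
  | var i => simp [Term.deg] at h
  | add s t hs ht =>
    simp only [Term.deg, Nat.max_eq_zero_iff] at h
    simp only [Term.eval, hs h.1, ht h.2]
  | sub s t hs ht =>
    simp only [Term.deg, Nat.max_eq_zero_iff] at h
    simp only [Term.eval, hs h.1, ht h.2]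
  | mul s t hs ht =>
    simp only [Term.deg, Nat.add_eq_zero_iff] at h
    simp only [Term.eval, hs h.1, ht h.2]

theorem tay1_aff (n : ℕ) (t : Term) (h : t.deg ∅ ≤ 1) (hb : t.Below n) (x : ℕ → ℝ) :
    t.eval x = t.eval (pv [] []) + ∑ i ∈ range n, (t.eval (pv [i] []) - t.eval (pv [] [])) * x i := by
  induction t with
  | zero => simp [Term.eval]
  | one => simp [Term.eval]
  | var j =>
    simp only [Term.Below] at hb
    have h0 : ∀ i, pv [i] [] j - pv [] [] j = if i = j then (1 : ℝ) else 0 := by
      intro i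
      unfold pv
      by_cases hij : i = j
      · subst hij
        simp
      · simp [hij]
    simp only [Term.eval, h0]
    simp [pv, hb]
  | add s t hs ht =>
    simp only [Term.deg, Nat.max_le] at h
    simp only [Term.Below] at hb
    simp only [Term.eval]
    rw [hs h.1 hb.1, ht h.2 hb.2]
    have : ∑ i ∈ range n, (s.eval (pv [i] []) + t.eval (pv [i] []) - (s.eval (pv [] []) + t.eval (pv [] []))) * x i =
        ∑ i ∈ range n, (s.eval (pv [i] []) - s.eval (pv [] [])) * x i +
        ∑ i ∈ range n, (t.eval (pv [i] []) - t.eval (pv [] [])) * x i := by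
      rw [← sum_add_distrib]
      exact sum_congr rfl fun i _ => by ring
    rw [this]
    ring
  | sub s t hs ht =>
    simp only [Term.deg, Nat.max_le] at h
    simp only [Term.Below] at hb
    simp only [Term.eval]
    rw [hs h.1 hb.1, ht h.2 hb.2]
    have : ∑ i ∈ range n, (s.eval (pv [i] []) - t.eval (pv [i] []) - (s.eval (pv [] []) - t.eval (pv [] []))) * x i =
        ∑ i ∈ range n, (s.eval (pv [i] []) - s.eval (pv [] [])) * x i -
        ∑ i ∈ range n, (t.eval (pv [i] []) - t.eval (pv [] [])) * x i := by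
      rw [← sum_sub_distrib]
      exact sum_congr rfl fun i _ => by ring
    rw [this]
    ring
  | mul s t hs ht =>
    simp only [Term.deg] at h
    simp only [Term.Below] at hb
    simp only [Term.eval]
    rcases Nat.eq_zero_or_pos (s.deg ∅) with h0 | h0
    · have hc := fun y => tay1_const s h0 y x
      simp only [hc]
      have : ∑ i ∈ range n, (s.eval x * t.eval (pv [i] []) - s.eval x * t.eval (pv [] [])) * x i =
          s.eval x * ∑ i ∈ range n, (t.eval (pv [i] []) - t.eval (pv [] [])) * x i := by
        rw [mul_sum]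
        exact sum_congr rfl fun i _ => by ring
      rw [this, ← mul_add, ← ht (by omega) hb.2]
    · have h0' : t.deg ∅ = 0 := by omega
      have hc := fun y => tay1_const t h0' y x
      simp only [hc]
      have : ∑ i ∈ range n, (s.eval (pv [i] []) * t.eval x - s.eval (pv [] []) * t.eval x) * x i =
          (∑ i ∈ range n, (s.eval (pv [i] []) - s.eval (pv [] [])) * x i) * t.eval x := by
        rw [sum_mul]
        exact sum_congr rfl fun i _ => by ring
      rw [this, ← add_mul, ← hs (by omega) hb.1]

theorem st_TAY1 : ST_TAY1 := by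
  intro s t n hs ht hbs hbt u x
  unfold lf
  rw [sum_range_succ', sum_range_succ', tay1_aff n s hs hbs x, tay1_aff n t ht hbt x]
  have h1 : ∀ m, cf1 oR (PPR (s, t)) (m + 1 + 1) * hX u x (m + 1 + 1) =
      u * ((s.eval (pv [m] []) - s.eval (pv [] [])) * x m) - u * ((t.eval (pv [m] []) - t.eval (pv [] [])) * x m) := by
    intro m
    have e1 : cf1 oR (PPR (s, t)) (m + 1 + 1) = PPR (s, t) [m] [] - PPR (s, t) [] [] := by
      unfold cf1
      simp [oR]
    have e2 : hX u x (m + 1 + 1) = u * x m := rfl
    rw [e1, e2]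
    unfold PPR
    ring
  have h2 : cf1 oR (PPR (s, t)) (0 + 1) * hX u x (0 + 1) = (s.eval (pv [] []) - t.eval (pv [] [])) * u := by
    have e1 : cf1 oR (PPR (s, t)) (0 + 1) = PPR (s, t) [] [] := by
      unfold cf1
      simp
    have e2 : hX u x (0 + 1) = u := rfl
    rw [e1, e2]
    unfold PPR
    rfl
  have h3 : cf1 oR (PPR (s, t)) 0 * hX u x 0 = 0 := by
    have e1 : cf1 oR (PPR (s, t)) 0 = 0 := by
      unfold cf1
      simp [oR]
    rw [e1, zero_mul]
  simp only [h1, h2, h3]
  rw [sum_sub_distrib, ← mul_sum, ← mul_sum]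
  ring

end Pool.Agent.Helper54.DT
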