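import Pool.Agent.Helper64.DT.Stmts

/-! GB1: for two crossing oriented chords the two values are different. -/

set_option autoImplicit false

namespace Pool.Agent.Helper64.DT

open Pool.Agent.Helper64.CT
open Pool.Agent.Helper64.HG (Ovl Model Circ IC HellyCircle ChordModel)

theorem gb1_left {V : Type} (l r : V → ℝ) (w : V → Bool) (x y : V)
    (h1 : l x < l y) (h2 : l y < r x) (h3 : r x < r y) :
    bm l r w x y ≠ bm l r w y x := by
  have e1 : InP l r x (l y) := ⟨h1, h2⟩
  have e2 : ¬ InP l r x (r y) := fun h => absurd h.2 (not_lt.2 h3.le)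
  have e3 : ¬ InP l r y (l x) := fun h => absurd h.1 (not_lt.2 h1.le)
  have e4 : InP l r y (r x) := ⟨h2, h3⟩
  unfold bm tl
  cases hx : w x <;> cases hy : w y <;> simp [e1, e2, e3, e4]

theorem st_GB1 : ST_GB1 := by
  intro V G T l r w h x hx y hy hxy
  rcases (h.adj x hx y hy).1 hxy with ⟨h1, h2, h3⟩ | ⟨h1, h2, h3⟩
  · exact gb1_left l r w x y h1 h2 h3
  · exact (gb1_left l r w y x h1 h2 h3).symm

end Pool.Agent.Helper64.DT
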