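import Pool.Agent.Helper64.DT.Stmts

/-! GB2: the values `bm c x` for `x` far from `c`. -/

set_option autoImplicit false

namespace Pool.Agent.Helper64.DT

open Pool.Agent.Helper64.CT
open Pool.Agent.Helper64.HG (Ovl Model Circ IC HellyCircle ChordModel)

theorem gb2_in {V : Type} {G : SimpleGraph V} {T : Set V} {l r : V → ℝ} (w : V → Bool)
    (h : MOn G T l r) {c x : V} (hc : c ∈ T) (hx : x ∈ T) (hf : x ∈ Far G c) :
    InP l r c (tl l r w x) ↔ Ins l r c x := by
  have hno : ¬ Ovl l r c x := fun ho => hf.2 ((h.adj c hc x hx).2 ho)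
  have hlx := h.lt x hx
  have hlc := h.lt c hc
  have n1 : l c ≠ l x := fun e => hf.1 (h.injl x hx c hc e.symm)
  have n2 : r c ≠ r x := fun e => hf.1 (h.injr x hx c hc e.symm)
  have n3 : l c ≠ r x := h.ne c hc x hx
  have n4 : l x ≠ r c := h.ne x hx c hc
  unfold tl
  cases hw : w x
  · simp only [Bool.false_eq_true, if_false]
    constructor
    · rintro ⟨h1, h2⟩
      refine ⟨?_, h2⟩
      by_contra h3
      have h4 : l x < l c := lt_of_le_of_ne (not_lt.1 h3) n1.symm
      exact hno (Or.inr ⟨h4, h1, h2⟩)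
    · rintro ⟨h1, h2⟩
      exact ⟨h1.trans hlx, h2⟩
  · simp only [if_true]
    constructor
    · rintro ⟨h1, h2⟩
      refine ⟨h1, ?_⟩
      by_contra h3
      have h4 : r c < r x := lt_of_le_of_ne (not_lt.1 h3) n2
      exact hno (Or.inl ⟨h1, h2, h4⟩)
    · rintro ⟨h1, h2⟩
      exact ⟨h1, hlx.trans h2⟩

theorem st_GB2 (hSD1 : CT.ST_SD1) : ST_GB2 := by
  intro V G T l r w h
  refine ⟨fun c hc x hx hf => gb2_in w h hc hx hf, ?_⟩
  intro c hc x hx y hy hfx hfy hxy
  have e : InP l r c (tl l r w x) ↔ InP l r c (tl l r w y) := by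
    rw [gb2_in w h hc hx hfx, gb2_in w h hc hy hfy]
    exact hSD1 V G T l r h c hc x hx y hy hfx hfy hxy
  unfold bm
  by_cases hi : InP l r c (tl l r w x)
  · rw [if_pos hi, if_pos (e.1 hi)]
  · rw [if_neg hi, if_neg (fun hh => hi (e.2 hh))]

end Pool.Agent.Helper64.DT
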